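import Mathlib

set_option autoImplicit false

/-! Minimal idempotents in compact right topological semigroups. -/

namespace Pool.Agent.Work.MP_661cb5_co

variable {M : Type*} [AddSemigroup M] [TopologicalSpace M] [CompactSpace M] [T2Space M]

/-- closed left ideals -/
def IsCLI (L : Set M) : Prop :=
  IsClosed L ∧ L.Nonempty ∧ ∀ (s : M) (l : M), l ∈ L → s + l ∈ L

theorem exists_minimal_cli {I : Set M} (hI : IsCLI I) :
    ∃ L : Set M, IsCLI L ∧ L ⊆ I ∧ ∀ L' : Set M, IsCLI L' → L' ⊆ L → L' = L := by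
  let S : Set (Set M) := { L | IsCLI L ∧ L ⊆ I }
  rsuffices ⟨L, hL⟩ : ∃ L', Minimal (· ∈ S) L'
  · refine ⟨L, hL.prop.1, hL.prop.2, fun L' h1 h2 => ?_⟩
    exact hL.eq_of_subset ⟨h1, h2.trans hL.prop.2⟩ h2
  refine zorn_superset _ fun c hcs hc => ?_
  obtain rfl | hcnemp := c.eq_empty_or_nonempty
  · exact ⟨I, ⟨hI, subset_rfl⟩, fun s hs => absurd hs (Set.notMem_empty s)⟩
  refine ⟨⋂₀ c, ⟨⟨isClosed_sInter fun t ht => (hcs ht).1.1, ?_, fun s l hl => ?_⟩, ?_⟩,
    fun s hs => Set.sInter_subset_of_mem hs⟩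
  · convert!
      @IsCompact.nonempty_iInter_of_directed_nonempty_isCompact_isClosed _ _ _ hcnemp.coe_sort
        ((↑) : c → Set M) ?_ ?_ ?_ ?_
    · exact Set.sInter_eq_iInter
    · refine DirectedOn.directed_val (IsChain.directedOn hc.symm)
    exacts [fun i => (hcs i.prop).1.2.1, fun i => (hcs i.prop).1.1.isCompact,
      fun i => (hcs i.prop).1.1]
  · rw [Set.mem_sInter]
    exact fun t ht => (hcs ht).1.2.2 s l (Set.mem_sInter.mp hl t ht)
  · obtain ⟨t, ht⟩ := hcnemp
    exact (Set.sInter_subset_of_mem ht).trans (hcs ht).2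

variable (hc : ∀ r : M, Continuous (· + r))
include hc

theorem cli_image {L : Set M} (hL : IsCLI L) (x : M) : IsCLI ((· + x) '' L) := by
  refine ⟨(hc x).isClosedMap _ hL.1, hL.2.1.image _, ?_⟩
  rintro s _ ⟨l, hl, rfl⟩
  exact ⟨s + l, hL.2.2 s l hl, add_assoc _ _ _⟩

theorem image_eq_of_minimal {L : Set M} (hL : IsCLI L)
    (hmin : ∀ L' : Set M, IsCLI L' → L' ⊆ L → L' = L) {x : M} (hx : x ∈ L) :
    (· + x) '' L = L := by
  refine hmin _ (cli_image hc hL x) ?_
  rintro _ ⟨l, hl, rfl⟩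
  exact hL.2.2 _ _ hx

theorem exists_min_idem {I : Set M} (hI : IsCLI I) :
    ∃ w ∈ I, w + w = w ∧ ∀ i : M, i + i = i → i + w = i → w + i = i → i = w := by
  obtain ⟨L, hL, hLI, hmin⟩ := exists_minimal_cli hI
  obtain ⟨w, hw, hww⟩ := exists_idempotent_in_compact_add_subsemigroup hc L hL.2.1
    hL.1.isCompact (fun x _ y hy => hL.2.2 x y hy)
  refine ⟨w, hLI hw, hww, fun i hi hiw hwi => ?_⟩
  have hiL : i ∈ L := by
    rw [← hiw]
    exact hL.2.2 _ _ hw
  have h1 : w ∈ (· + i) '' L := by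
    rw [image_eq_of_minimal hc hL hmin hiL]
    exact hw
  obtain ⟨z, _, hz⟩ := h1
  have h2 : w + i = w := by
    have hz' : z + i = w := hz
    rw [← hz', add_assoc, hi]
  rw [← hwi, h2]

/-- For idempotents `c`, `d` there is an idempotent `f` with `c + f = f = f + d`. -/
theorem exists_idem_between (c d : M) (hcc : c + c = c) (hdd : d + d = d) :
    ∃ f : M, f + f = f ∧ c + f = f ∧ f + d = f := by
  have hI : IsCLI ((· + d) '' (Set.univ : Set M)) :=
    cli_image hc ⟨isClosed_univ, ⟨c, Set.mem_univ _⟩, fun _ _ _ => Set.mem_univ _⟩ d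
  obtain ⟨L, hL, hLI, hmin⟩ := exists_minimal_cli hI
  obtain ⟨l, hl⟩ := hL.2.1
  have hx : c + l ∈ L := hL.2.2 _ _ hl
  -- left identities of `x = c + l` inside `L`
  obtain ⟨e, ⟨heL, hex⟩, hee⟩ := exists_idempotent_in_compact_add_subsemigroup hc
    (L ∩ { z | z + (c + l) = c + l })
    (by
      have h1 : c + l ∈ (· + (c + l)) '' L := by
        rw [image_eq_of_minimal hc hL hmin hx]
        exact hx
      obtain ⟨z, hz, hz2⟩ := h1
      exact ⟨z, hz, hz2⟩)
    (hL.1.inter ((T1Space.t1 (c + l)).preimage (hc (c + l)))).isCompact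
    (by
      rintro a ⟨_, ha2⟩ b ⟨hb1, hb2⟩
      refine ⟨hL.2.2 _ _ hb1, ?_⟩
      rw [Set.mem_ofPred_eq] at ha2 hb2 ⊢
      rw [add_assoc, hb2, ha2])
  rw [Set.mem_ofPred_eq] at hex
  -- every element of `e + M + e` has a left inverse there
  have linv : ∀ g : M, g ∈ L → e + g = g → ∃ h : M, h ∈ L ∧ e + h = h ∧ h + e = h ∧ h + g = e := by
    intro g hg heg
    have h1 : e ∈ (· + g) '' L := by
      rw [image_eq_of_minimal hc hL hmin hg]
      exact heL
    obtain ⟨h, hh, hh2⟩ := h1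
    have hh3 : h + g = e := hh2
    refine ⟨e + h + e, hL.2.2 _ _ heL, ?_, ?_, ?_⟩
    · rw [← add_assoc, ← add_assoc, hee]
    · rw [add_assoc, hee]
    · rw [add_assoc, heg, add_assoc, hh3, hee]
  have hgL : c + l + e ∈ L := hL.2.2 _ _ heL
  have heg : e + (c + l + e) = c + l + e := by rw [← add_assoc, hex]
  have hge : c + l + e + e = c + l + e := by rw [add_assoc, hee]
  obtain ⟨h, hhL, h1, h2, h3⟩ := linv _ hgL heg
  obtain ⟨k, _, k1, k2, k3⟩ := linv _ hhL h1
  have hgk : c + l + e = k := by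
    calc c + l + e = e + (c + l + e) := heg.symm
      _ = (k + h) + (c + l + e) := by rw [k3]
      _ = k + (h + (c + l + e)) := add_assoc _ _ _
      _ = k + e := by rw [h3]
      _ = k := k2
  have hgh : c + l + e + h = e := by rw [hgk, k3]
  refine ⟨e, hee, ?_, ?_⟩
  · calc c + e = c + (c + l + e + h) := by rw [hgh]
      _ = (c + c) + (l + e + h) := by simp only [add_assoc]
      _ = c + l + e + h := by rw [hcc]; simp only [add_assoc]
      _ = e := hgh
  · obtain ⟨z, _, hz⟩ := hLI heL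
    have hz' : z + d = e := hz
    rw [← hz', add_assoc, hdd]

end Pool.Agent.Work.MP_661cb5_co
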