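import Mathlib
import Pool.Agent.Work.MP_661cb5_co.Algebra

set_option autoImplicit false

namespace Pool.Agent.Work.MP_661cb5_co

open Filter

attribute [local instance] Ultrafilter.add Ultrafilter.addSemigroup

theorem umap_add {M N : Type*} [AddSemigroup M] [AddSemigroup N] (g : M → N)
    (hg : ∀ a b, g (a + b) = g a + g b) (U V : Ultrafilter M) :
    (U + V).map g = U.map g + V.map g := by
  refine Ultrafilter.coe_inj.mp <| Filter.ext' fun p => ?_
  rw [Ultrafilter.coe_map, Filter.eventually_map, Ultrafilter.eventually_add,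
    Ultrafilter.eventually_add]
  simp only [Ultrafilter.coe_map, Filter.eventually_map, hg]

theorem ucont {M : Type*} [AddSemigroup M] (r : Ultrafilter M) : Continuous (· + r) :=
  Ultrafilter.continuous_add_left r

theorem ueq {M : Type*} {U V : Ultrafilter M} (h : ∀ p : M → Prop, (∀ᶠ x in U, p x) ↔ ∀ᶠ x in V, p x) :
    U = V :=
  Ultrafilter.coe_inj.mp <| Filter.ext' h

/-- A minimal idempotent ultrafilter on `ℕ`, different from the trivial one. -/
theorem exists_w : ∃ w : Ultrafilter ℕ, (∀ᶠ n in w, 0 < n) ∧ w + w = w ∧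
    ∀ i : Ultrafilter ℕ, i + i = i → i + w = i → w + i = i → i = w := by
  have hI : IsCLI { p : Ultrafilter ℕ | {n : ℕ | 0 < n} ∈ p } := by
    refine ⟨ultrafilter_isClosed_basic _, ⟨pure 1, ?_⟩, fun s l hl => ?_⟩
    · simp
    · have hl' : ∀ᶠ n in l, 0 < n := hl
      have : ∀ᶠ n in (↑(s + l) : Filter ℕ), 0 < n := by
        rw [Ultrafilter.eventually_add]
        refine Filter.Eventually.of_forall fun m => ?_
        filter_upwards [hl'] with m' hm'
        omega
      exact this
  obtain ⟨w, hw, h1, h2⟩ := exists_min_idem (M := Ultrafilter ℕ) ucont hI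
  exact ⟨w, hw, h1, h2⟩

theorem w_three {w : Ultrafilter ℕ} (hw : w + w = w) : ∀ᶠ n in w, n % 3 = 0 := by
  obtain ⟨r, hr⟩ := Ultrafilter.eq_pure_of_finite (w.map (fun n : ℕ => (n : ZMod 3)))
  have h1 : ∀ᶠ n : ℕ in (w : Filter ℕ), (n : ZMod 3) = r := by
    have h2 : ∀ᶠ x in (↑(w.map (fun n : ℕ => (n : ZMod 3))) : Filter (ZMod 3)), x = r := by
      rw [hr]
      simp
    rw [Ultrafilter.coe_map, Filter.eventually_map] at h2
    exact h2
  have h3 : ∀ᶠ n : ℕ in (↑(w + w) : Filter ℕ), (n : ZMod 3) = r := by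
    rw [hw]
    exact h1
  rw [Ultrafilter.eventually_add] at h3
  obtain ⟨m, hm1, hm2⟩ := (h3.and h1).exists
  obtain ⟨m', h4, h5⟩ := (hm1.and h1).exists
  have hr0 : r = 0 := by
    push_cast at h4
    rw [hm2, h5] at h4
    simpa using h4
  filter_upwards [h1] with n hn
  rw [hr0] at hn
  have := (ZMod.natCast_eq_zero_iff n 3).mp hn
  omega

/-- `w` divided by three. -/
theorem exists_third {w : Ultrafilter ℕ} (hw : w + w = w) :
    ∃ u : Ultrafilter ℕ, u + u = u ∧ u.map (fun n => 3 * n) = w := by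
  have h3 := w_three hw
  refine ⟨w.map (fun n => n / 3), ?_, ?_⟩
  · refine ueq fun p => ?_
    rw [Ultrafilter.eventually_add]
    simp only [Ultrafilter.coe_map, Filter.eventually_map]
    have h4 : (∀ᶠ n in (w : Filter ℕ), p (n / 3)) ↔ ∀ᶠ n in (↑(w + w) : Filter ℕ), p (n / 3) := by
      rw [hw]
    rw [h4, Ultrafilter.eventually_add]
    refine Filter.eventually_congr ?_
    filter_upwards [h3] with a ha
    refine Filter.eventually_congr ?_
    filter_upwards [h3] with b hb
    have : (a + b) / 3 = a / 3 + b / 3 := by omega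
    rw [this]
  · refine ueq fun p => ?_
    simp only [Ultrafilter.coe_map, Filter.eventually_map]
    refine Filter.eventually_congr ?_
    filter_upwards [h3] with a ha
    have : 3 * (a / 3) = a := by omega
    rw [this]

theorem map_map' {α β γ : Type*} (U : Ultrafilter α) (f : α → β) (g : β → γ) (k : α → γ)
    (h : ∀ x, g (f x) = k x) : (U.map f).map g = U.map k := by
  refine ueq fun p => ?_
  simp only [Ultrafilter.coe_map, Filter.eventually_map, h]

theorem map_id'' {α : Type*} (U : Ultrafilter α) (f : α → α) (h : ∀ x, f x = x) : U.map f = U := by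
  refine ueq fun p => ?_
  simp only [Ultrafilter.coe_map, Filter.eventually_map, h]

/-- The ultrafilter on `ℕ × ℕ` used to choose the pairs `(i, j)`; `q 1` and `q 2` are the
ultrafilters of the remaining sums, given that the current coefficient is `1` or `2`. -/
theorem exists_C : ∃ (C : Ultrafilter (ℕ × ℕ)) (q : ℕ → Ultrafilter ℕ),
    C.map Prod.snd = q 1 ∧ (∀ᶠ x : ℕ × ℕ in (C : Filter (ℕ × ℕ)), 0 < x.2) ∧
    ∀ a b : ℕ, (a = 1 ∨ a = 2) → (b = 1 ∨ b = 2) →
      C.map (fun x => b * x.1 + a * x.2) + q b = q a := by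
  obtain ⟨w, hw0, hww, hmin⟩ := exists_w
  obtain ⟨u, huu, huw⟩ := exists_third hww
  have addl : ∀ (a b : ℕ) (x y : ℕ × ℕ),
      (fun x : ℕ × ℕ => b * x.1 + a * x.2) (x + y) =
      (fun x : ℕ × ℕ => b * x.1 + a * x.2) x + (fun x : ℕ × ℕ => b * x.1 + a * x.2) y := by
    intro a b x y
    simp only [Prod.fst_add, Prod.snd_add]
    ring
  have hcc : u.map (fun n => (n, n)) + u.map (fun n => (n, n)) = u.map (fun n => (n, n)) := by
    rw [← umap_add _ (fun a b => rfl), huu]
  have hdd : w.map (fun n => (n, 0)) + w.map (fun n => (n, 0)) = w.map (fun n => (n, 0)) := by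
    rw [← umap_add _ (fun a b => rfl), hww]
  obtain ⟨f, hff, hcf, hfd⟩ := exists_idem_between (M := Ultrafilter (ℕ × ℕ)) ucont _ _ hcc hdd
  -- images of `f`
  have idem : ∀ a b : ℕ, f.map (fun x => b * x.1 + a * x.2) + f.map (fun x => b * x.1 + a * x.2)
      = f.map (fun x => b * x.1 + a * x.2) := by
    intro a b
    rw [← umap_add _ (addl a b), hff]
  have left : ∀ a b : ℕ, a + b = 3 → w + f.map (fun x => b * x.1 + a * x.2)
      = f.map (fun x => b * x.1 + a * x.2) := by
    intro a b hab
    conv_rhs => rw [← hcf]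
    rw [umap_add _ (addl a b), map_map' u _ _ (fun n => 3 * n)
      (fun n => by simp only; rw [← add_mul, add_comm b a, hab]), huw]
  have right : ∀ a b : ℕ, f.map (fun x => b * x.1 + a * x.2) + w.map (fun n => b * n)
      = f.map (fun x => b * x.1 + a * x.2) := by
    intro a b
    conv_rhs => rw [← hfd]
    rw [umap_add _ (addl a b), map_map' w _ _ (fun n => b * n) (fun n => by simp)]
  have one : w.map (fun n => 1 * n) = w := map_id'' w _ (fun n => by simp)
  set C : Ultrafilter (ℕ × ℕ) := w.map (fun n => (0, n)) + f with hC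
  have Cmap : ∀ a b : ℕ, C.map (fun x => b * x.1 + a * x.2) =
      w.map (fun n => a * n) + f.map (fun x => b * x.1 + a * x.2) := by
    intro a b
    rw [hC, umap_add _ (addl a b), map_map' w _ _ (fun n => a * n) (fun n => by simp)]
  have Csnd : C.map Prod.snd = w + f.map Prod.snd := by
    rw [hC, umap_add _ (fun a b => rfl), map_map' w _ _ (fun n => n) (fun n => rfl),
      map_id'' w _ (fun n => rfl)]
  -- the image under `x.1 + x.2` is `w`
  have p11 : C.map (fun x => 1 * x.1 + 1 * x.2) = w := by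
    rw [Cmap, one]
    have r11 := right 1 1
    rw [one] at r11
    refine hmin _ ?_ ?_ ?_
    · rw [add_assoc, ← add_assoc (f.map _) w, r11, idem]
    · rw [add_assoc, r11]
    · rw [← add_assoc, hww]
  have w2 : w.map (fun n => 2 * n) + w.map (fun n => 2 * n) = w.map (fun n => 2 * n) := by
    rw [← umap_add _ (fun a b => by ring), hww]
  have p22 : C.map (fun x => 2 * x.1 + 2 * x.2) = w.map (fun n => 2 * n) := by
    rw [← map_map' C (fun x => 1 * x.1 + 1 * x.2) (fun n => 2 * n) _ (fun x => by ring), p11]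
  have f21 : f.map (fun x => 1 * x.1 + 2 * x.2) = w := by
    have r21 := right 2 1
    rw [one] at r21
    exact hmin _ (idem 2 1) r21 (left 2 1 rfl)
  have p21 : C.map (fun x => 1 * x.1 + 2 * x.2) = w.map (fun n => 2 * n) + w := by
    rw [Cmap, f21]
  have p12 : C.map (fun x => 2 * x.1 + 1 * x.2) = f.map (fun x => 2 * x.1 + 1 * x.2) := by
    rw [Cmap, one, left 1 2 rfl]
  have kw : f.map (fun x => 2 * x.1 + 1 * x.2) + w = w := by
    have l12 := left 1 2 rfl
    refine hmin _ ?_ ?_ ?_
    · rw [add_assoc, ← add_assoc w, l12, ← add_assoc, idem]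
    · rw [add_assoc, hww]
    · rw [← add_assoc, l12]
  have hwq : w + C.map Prod.snd = C.map Prod.snd := by
    rw [Csnd, ← add_assoc, hww]
  refine ⟨C, fun a => if a = 1 then C.map Prod.snd else w.map (fun n => 2 * n) + C.map Prod.snd,
    by simp, ?_, ?_⟩
  · have h1 : ∀ᶠ n in (↑(C.map Prod.snd) : Filter ℕ), 0 < n := by
      rw [Csnd, Ultrafilter.eventually_add]
      filter_upwards [hw0] with m hm
      exact Filter.Eventually.of_forall fun m' => by omega
    rw [Ultrafilter.coe_map, Filter.eventually_map] at h1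
    exact h1
  · rintro a b (rfl | rfl) (rfl | rfl)
    · simp only [if_true]
      rw [p11, hwq]
    · simp only [if_true, if_neg (by norm_num : ¬ (2 : ℕ) = 1)]
      rw [p12, ← add_assoc, right 1 2, ← hwq, ← add_assoc, kw]
    · simp only [if_true, if_neg (by norm_num : ¬ (2 : ℕ) = 1)]
      rw [p21, add_assoc, hwq]
    · simp only [if_neg (by norm_num : ¬ (2 : ℕ) = 1)]
      rw [p22, ← add_assoc, w2]

end Pool.Agent.Work.MP_661cb5_co
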