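import Mathlib
import Pool.Agent.Work.MP_661cb5_co.Ultra

set_option autoImplicit false

/-! The ultrafilters for coefficients in `{1, k}`. -/

namespace Pool.Agent.Work.MP_661cb5_co.General

open Filter Pool.Agent.Work.MP_661cb5_co

attribute [local instance] Ultrafilter.add Ultrafilter.addSemigroup

theorem w_dvd {w : Ultrafilter ℕ} (hw : w + w = w) (N : ℕ) [NeZero N] :
    ∀ᶠ n in w, n % N = 0 := by
  obtain ⟨r, hr⟩ := Ultrafilter.eq_pure_of_finite (w.map (fun n : ℕ => (n : ZMod N)))
  have h1 : ∀ᶠ n : ℕ in (w : Filter ℕ), (n : ZMod N) = r := by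
    have h2 : ∀ᶠ x in (↑(w.map (fun n : ℕ => (n : ZMod N))) : Filter (ZMod N)), x = r := by
      rw [hr]
      simp
    rw [Ultrafilter.coe_map, Filter.eventually_map] at h2
    exact h2
  have h3 : ∀ᶠ n : ℕ in (↑(w + w) : Filter ℕ), (n : ZMod N) = r := by
    rw [hw]
    exact h1
  rw [Ultrafilter.eventually_add] at h3
  obtain ⟨m, hm1, hm2⟩ := (h3.and h1).exists
  obtain ⟨m', h4, h5⟩ := (hm1.and h1).exists
  have hr0 : r = 0 := by
    push_cast at h4
    rw [hm2, h5] at h4
    simpa using h4
  filter_upwards [h1] with n hn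
  rw [hr0] at hn
  exact Nat.mod_eq_zero_of_dvd ((ZMod.natCast_eq_zero_iff n N).mp hn)

/-- `w` divided by `N`. -/
theorem exists_part {w : Ultrafilter ℕ} (hw : w + w = w) (N : ℕ) [NeZero N] :
    ∃ u : Ultrafilter ℕ, u + u = u ∧ u.map (fun n => N * n) = w := by
  have h3 := w_dvd hw N
  refine ⟨w.map (fun n => n / N), ?_, ?_⟩
  · refine ueq fun p => ?_
    rw [Ultrafilter.eventually_add]
    simp only [Ultrafilter.coe_map, Filter.eventually_map]
    have h4 : (∀ᶠ n in (w : Filter ℕ), p (n / N)) ↔ ∀ᶠ n in (↑(w + w) : Filter ℕ), p (n / N) := by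
      rw [hw]
    rw [h4, Ultrafilter.eventually_add]
    refine Filter.eventually_congr ?_
    filter_upwards [h3] with a ha
    refine Filter.eventually_congr ?_
    filter_upwards [h3] with b hb
    have : (a + b) / N = a / N + b / N := Nat.add_div_of_dvd_right (Nat.dvd_of_mod_eq_zero ha)
    rw [this]
  · refine ueq fun p => ?_
    simp only [Ultrafilter.coe_map, Filter.eventually_map]
    refine Filter.eventually_congr ?_
    filter_upwards [h3] with a ha
    have : N * (a / N) = a := Nat.mul_div_cancel' (Nat.dvd_of_mod_eq_zero ha)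
    rw [this]

/-- The ultrafilter on `ℕ × ℕ` used to choose the pairs `(i, j)`; `q 1` and `q k` are the
ultrafilters of the remaining sums, given that the current coefficient is `1` or `k`. -/
theorem exists_C (k : ℕ) (hk : k ≠ 1) : ∃ (C : Ultrafilter (ℕ × ℕ)) (q : ℕ → Ultrafilter ℕ),
    C.map Prod.snd = q 1 ∧ (∀ᶠ x : ℕ × ℕ in (C : Filter (ℕ × ℕ)), 0 < x.2) ∧
    ∀ a b : ℕ, (a = 1 ∨ a = k) → (b = 1 ∨ b = k) →
      C.map (fun x => b * x.1 + a * x.2) + q b = q a := by
  obtain ⟨w, hw0, hww, hmin⟩ := exists_w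
  obtain ⟨u, huu, huw⟩ := exists_part hww (k + 1)
  have addl : ∀ (a b : ℕ) (x y : ℕ × ℕ),
      (fun x : ℕ × ℕ => b * x.1 + a * x.2) (x + y) =
      (fun x : ℕ × ℕ => b * x.1 + a * x.2) x + (fun x : ℕ × ℕ => b * x.1 + a * x.2) y := by
    intro a b x y
    simp only [Prod.fst_add, Prod.snd_add]
    ring
  have hcc : u.map (fun n => (n, n)) + u.map (fun n => (n, n)) = u.map (fun n => (n, n)) := by
    rw [← umap_add _ (fun a b => rfl), huu]
  have hdd : w.map (fun n => (n, 0)) + w.map (fun n => (n, 0)) = w.map (fun n => (n, 0)) := by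
    rw [← umap_add _ (fun a b => rfl), hww]
  obtain ⟨f, hff, hcf, hfd⟩ := exists_idem_between (M := Ultrafilter (ℕ × ℕ)) ucont _ _ hcc hdd
  -- images of `f`
  have idem : ∀ a b : ℕ, f.map (fun x => b * x.1 + a * x.2) + f.map (fun x => b * x.1 + a * x.2)
      = f.map (fun x => b * x.1 + a * x.2) := by
    intro a b
    rw [← umap_add _ (addl a b), hff]
  have left : ∀ a b : ℕ, a + b = k + 1 → w + f.map (fun x => b * x.1 + a * x.2)
      = f.map (fun x => b * x.1 + a * x.2) := by
    intro a b hab
    conv_rhs => rw [← hcf]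
    rw [umap_add _ (addl a b), map_map' u _ _ (fun n => (k + 1) * n)
      (fun n => by simp only; rw [← add_mul, add_comm b a, hab]), huw]
  have right : ∀ a b : ℕ, f.map (fun x => b * x.1 + a * x.2) + w.map (fun n => b * n)
      = f.map (fun x => b * x.1 + a * x.2) := by
    intro a b
    conv_rhs => rw [← hfd]
    rw [umap_add _ (addl a b), map_map' w _ _ (fun n => b * n) (fun n => by simp)]
  have one : w.map (fun n => 1 * n) = w := map_id'' w _ (fun n => by simp)
  set C : Ultrafilter (ℕ × ℕ) := w.map (fun n => (0, n)) + f with hC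
  have Cmap : ∀ a b : ℕ, C.map (fun x => b * x.1 + a * x.2) =
      w.map (fun n => a * n) + f.map (fun x => b * x.1 + a * x.2) := by
    intro a b
    rw [hC, umap_add _ (addl a b), map_map' w _ _ (fun n => a * n) (fun n => by simp)]
  have Csnd : C.map Prod.snd = w + f.map Prod.snd := by
    rw [hC, umap_add _ (fun a b => rfl), map_map' w _ _ (fun n => n) (fun n => rfl),
      map_id'' w _ (fun n => rfl)]
  -- the image under `x.1 + x.2` is `w`
  have p11 : C.map (fun x => 1 * x.1 + 1 * x.2) = w := by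
    rw [Cmap, one]
    have r11 := right 1 1
    rw [one] at r11
    refine hmin _ ?_ ?_ ?_
    · rw [add_assoc, ← add_assoc (f.map _) w, r11, idem]
    · rw [add_assoc, r11]
    · rw [← add_assoc, hww]
  have w2 : w.map (fun n => k * n) + w.map (fun n => k * n) = w.map (fun n => k * n) := by
    rw [← umap_add _ (fun a b => by ring), hww]
  have p22 : C.map (fun x => k * x.1 + k * x.2) = w.map (fun n => k * n) := by
    rw [← map_map' C (fun x => 1 * x.1 + 1 * x.2) (fun n => k * n) _ (fun x => by ring), p11]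
  have f21 : f.map (fun x => 1 * x.1 + k * x.2) = w := by
    have r21 := right k 1
    rw [one] at r21
    exact hmin _ (idem k 1) r21 (left k 1 rfl)
  have p21 : C.map (fun x => 1 * x.1 + k * x.2) = w.map (fun n => k * n) + w := by
    rw [Cmap, f21]
  have p12 : C.map (fun x => k * x.1 + 1 * x.2) = f.map (fun x => k * x.1 + 1 * x.2) := by
    rw [Cmap, one, left 1 k (add_comm 1 k)]
  have kw : f.map (fun x => k * x.1 + 1 * x.2) + w = w := by
    have l12 := left 1 k (add_comm 1 k)
    refine hmin _ ?_ ?_ ?_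
    · rw [add_assoc, ← add_assoc w, l12, ← add_assoc, idem]
    · rw [add_assoc, hww]
    · rw [← add_assoc, l12]
  have hwq : w + C.map Prod.snd = C.map Prod.snd := by
    rw [Csnd, ← add_assoc, hww]
  refine ⟨C, fun a => if a = 1 then C.map Prod.snd else w.map (fun n => k * n) + C.map Prod.snd,
    by simp, ?_, ?_⟩
  · have h1 : ∀ᶠ n in (↑(C.map Prod.snd) : Filter ℕ), 0 < n := by
      rw [Csnd, Ultrafilter.eventually_add]
      filter_upwards [hw0] with m hm
      exact Filter.Eventually.of_forall fun m' => by omega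
    rw [Ultrafilter.coe_map, Filter.eventually_map] at h1
    exact h1
  · rintro a b (ha | ha) (hb | hb) <;> rw [ha, hb]
    · simp only [if_true]
      rw [p11, hwq]
    · simp only [if_true, if_neg hk]
      rw [p12, ← add_assoc, right 1 k, ← hwq, ← add_assoc, kw]
    · simp only [if_true, if_neg hk]
      rw [p21, add_assoc, hwq]
    · simp only [if_neg hk]
      rw [p22, ← add_assoc, w2]

end Pool.Agent.Work.MP_661cb5_co.General
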