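import Mathlib
import Pool.Agent.Work.MP_661cb5_co.GenUltra

set_option autoImplicit false

namespace Pool.Agent.Work.MP_661cb5_co.General

open Filter

attribute [local instance] Ultrafilter.add Ultrafilter.addSemigroup

/-- A finite set of pairs `(σ, b)`: `σ` a prefix sum, `b` the next coefficient. -/
def Good (k : ℕ) (A : ℕ → Prop) (q : ℕ → Ultrafilter ℕ) (P : Finset (ℕ × ℕ)) : Prop :=
  ∀ s ∈ P, (s.2 = 1 ∨ s.2 = k) ∧ ∀ᶠ t in (q s.2 : Filter ℕ), A (s.1 + t)

/-- The next set of pairs after choosing `x`. -/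
def next (k : ℕ) (P : Finset (ℕ × ℕ)) (x : ℕ × ℕ) : Finset (ℕ × ℕ) :=
  P.image (fun s => (s.1 + (1 * x.1 + s.2 * x.2), 1)) ∪
    P.image (fun s => (s.1 + (k * x.1 + s.2 * x.2), k))

theorem step (k : ℕ) (A : ℕ → Prop) (C : Ultrafilter (ℕ × ℕ)) (q : ℕ → Ultrafilter ℕ)
    (h1 : C.map Prod.snd = q 1) (h2 : ∀ᶠ x : ℕ × ℕ in (C : Filter (ℕ × ℕ)), 0 < x.2)
    (h3 : ∀ a b : ℕ, (a = 1 ∨ a = k) → (b = 1 ∨ b = k) →
      C.map (fun x => b * x.1 + a * x.2) + q b = q a)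
    (P : Finset (ℕ × ℕ)) (hP : Good k A q P) :
    ∃ x : ℕ × ℕ, 0 < x.2 ∧ (∀ s ∈ P, s.2 = 1 → A (s.1 + x.2)) ∧ Good k A q (next k P x) := by
  have e1 : ∀ᶠ x : ℕ × ℕ in (C : Filter (ℕ × ℕ)), ∀ s ∈ P, s.2 = 1 → A (s.1 + x.2) := by
    rw [Filter.eventually_all_finset]
    intro s hs
    by_cases hs1 : s.2 = 1
    · have h4 := (hP s hs).2
      rw [hs1, ← h1, Ultrafilter.coe_map, Filter.eventually_map] at h4
      filter_upwards [h4] with x hx _
      exact hx
    · exact Filter.Eventually.of_forall fun x h => absurd h hs1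
  have e2 : ∀ b : ℕ, (b = 1 ∨ b = k) → ∀ᶠ x : ℕ × ℕ in (C : Filter (ℕ × ℕ)), ∀ s ∈ P,
      ∀ᶠ t in (q b : Filter ℕ), A (s.1 + (b * x.1 + s.2 * x.2) + t) := by
    intro b hb
    rw [Filter.eventually_all_finset]
    intro s hs
    obtain ⟨hs2, h4⟩ := hP s hs
    rw [← h3 s.2 b hs2 hb, Ultrafilter.eventually_add, Ultrafilter.coe_map,
      Filter.eventually_map] at h4
    filter_upwards [h4] with x hx
    filter_upwards [hx] with t ht
    rw [add_assoc]
    exact ht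
  obtain ⟨x, hx1, hx2, hx3, hx4⟩ :=
    (h2.and (e1.and ((e2 1 (Or.inl rfl)).and (e2 k (Or.inr rfl))))).exists
  refine ⟨x, hx1, hx2, ?_⟩
  intro s hs
  rw [next, Finset.mem_union, Finset.mem_image, Finset.mem_image] at hs
  rcases hs with ⟨s', hs', rfl⟩ | ⟨s', hs', rfl⟩
  · exact ⟨Or.inl rfl, hx3 s' hs'⟩
  · exact ⟨Or.inr rfl, hx4 s' hs'⟩

theorem main (k : ℕ) (hk : k ≠ 1) (r : ℕ) (c : ℕ → Fin r) : ∃ y : ℕ → ℕ, (∀ n, 0 < y n) ∧ ∃ col : Fin r,
      ∀ n : ℕ, 1 ≤ n → ∀ a : ℕ → ℕ, (∀ i, a i = 1 ∨ a i = k) → a 0 = 1 → a (n - 1) = 1 →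
        c (∑ i ∈ Finset.range n, a i * y i) = col := by
  obtain ⟨C, q, h1, h2, h3⟩ := exists_C k hk
  obtain ⟨col, hcol⟩ := Ultrafilter.eq_pure_of_finite ((q 1).map c)
  have hA : ∀ᶠ n in (q 1 : Filter ℕ), c n = col := by
    have h4 : ∀ᶠ x in (↑((q 1).map c) : Filter (Fin r)), x = col := by
      rw [hcol]
      simp
    rw [Ultrafilter.coe_map, Filter.eventually_map] at h4
    exact h4
  set A : ℕ → Prop := fun n => c n = col with hAdef
  have hst := step k A C q h1 h2 h3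
  choose! g hg1 hg2 hg3 using hst
  -- the sequence of finite sets and pairs
  let P : ℕ → Finset (ℕ × ℕ) := fun n => Nat.rec {((0, 1) : ℕ × ℕ)} (fun _ Q => next k Q (g Q)) n
  have P0 : P 0 = {((0, 1) : ℕ × ℕ)} := rfl
  have PS : ∀ n, P (n + 1) = next k (P n) (g (P n)) := fun n => rfl
  have hgood : ∀ n, Good k A q (P n) := by
    intro n
    induction n with
    | zero =>
      intro s hs
      rw [P0, Finset.mem_singleton] at hs
      subst hs
      exact ⟨Or.inl rfl, by simpa using hA⟩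
    | succ n ih =>
      rw [PS]
      exact hg3 _ ih
  let x : ℕ → ℕ × ℕ := fun n => g (P n)
  let y : ℕ → ℕ := fun n => if n = 0 then (x 0).2 else (x (n - 1)).1 + (x n).2
  have hy0 : y 0 = (x 0).2 := rfl
  have hyS : ∀ n, y (n + 1) = (x n).1 + (x (n + 1)).2 := fun n => rfl
  have hx2 : ∀ n, 0 < (x n).2 := fun n => hg1 _ (hgood n)
  refine ⟨y, ?_, col, ?_⟩
  · intro n
    cases n with
    | zero => rw [hy0]; exact hx2 0
    | succ n => rw [hyS]; have := hx2 (n + 1); omega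
  · intro n hn a ha ha0 hak
    obtain ⟨m, rfl⟩ : ∃ m, n = m + 1 := ⟨n - 1, by omega⟩
    rw [Nat.add_sub_cancel] at hak
    -- prefix sums
    have key : ∀ n, ∃ σ : ℕ, (σ, a n) ∈ P n ∧
        ∑ i ∈ Finset.range (n + 1), a i * y i = σ + a n * (x n).2 := by
      intro n
      induction n with
      | zero =>
        refine ⟨0, ?_, ?_⟩
        · rw [P0, ha0]; simp
        · simp [hy0]
      | succ n ih =>
        obtain ⟨σ, hσ1, hσ2⟩ := ih
        refine ⟨σ + (a (n + 1) * (x n).1 + a n * (x n).2), ?_, ?_⟩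
        · rw [PS, next, Finset.mem_union, Finset.mem_image, Finset.mem_image]
          rcases ha (n + 1) with h | h
          · left
            exact ⟨_, hσ1, by simp only [h]; rfl⟩
          · right
            exact ⟨_, hσ1, by simp only [h]; rfl⟩
        · rw [Finset.sum_range_succ, hσ2, hyS]
          ring
    obtain ⟨σ, hσ1, hσ2⟩ := key m
    rw [hσ2, hak, one_mul]
    rw [hak] at hσ1
    exact hg2 _ (hgood m) _ hσ1 rfl

end Pool.Agent.Work.MP_661cb5_co.General
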